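import Mathlib

/-!
# MP_50a406_nt: Sophie Germain's theorem over number fields

The first case of Fermat's equation for an exponent divisible by `p` over a number field `K`, from
one auxiliary prime: every solution with nonzero entries has, at some prime above `p`, valuations
that are not all equal. The class number and the units enter only through the elements of `K` all
of whose valuations are divisible by `p`. Consequences for imaginary quadratic fields.
-/

set_option autoImplicit false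

namespace Pool.Agent.Results.MP_50a406_nt.FirstCase

open IsDedekindDomain NumberField nonZeroDivisors

/-! ### Elements all of whose valuations are `p`-th powers -/

theorem L1_int {K : Type} [Field K] [NumberField K] {p : ℕ} (hp : p.Prime)
    (hcl : ¬ p ∣ classNumber K) {n : 𝓞 K} (hn : n ≠ 0)
    (h : ∀ v : HeightOneSpectrum (𝓞 K), ∃ γ : WithZero (Multiplicative ℤ),
      v.intValuation n = γ ^ p) :
    ∃ (u : (𝓞 K)ˣ) (a : 𝓞 K), n = u * a ^ p := by
  classical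
  have hspan : Ideal.span {n} ≠ (⊥ : Ideal (𝓞 K)) := by
    rw [Ne, Ideal.span_singleton_eq_bot]; exact hn
  have hne : Associates.mk (Ideal.span {n} : Ideal (𝓞 K)) ≠ 0 := by
    rw [Associates.mk_ne_zero]; exact hspan
  obtain ⟨b, hb⟩ := Associates.is_pow_of_dvd_count hne (k := p) (by
    intro P hP
    obtain ⟨P, rfl⟩ := Associates.mk_surjective P
    have hP' := hP
    rw [Associates.irreducible_mk, irreducible_iff_prime] at hP'
    obtain ⟨γ, hγ⟩ := h ⟨P, Ideal.isPrime_of_prime hP', hP'.ne_zero⟩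
    rw [HeightOneSpectrum.intValuation_if_neg _ hn] at hγ
    have hγ0 : γ ≠ 0 := by
      rintro rfl
      rw [zero_pow hp.ne_zero] at hγ
      exact WithZero.exp_ne_zero hγ
    have h1 := congrArg WithZero.log hγ
    rw [WithZero.log_exp, WithZero.log_pow] at h1
    have h2 : (p : ℤ) ∣ ((Associates.mk P).count (Associates.mk (Ideal.span {n})).factors : ℤ) := by
      refine ⟨-WithZero.log γ, ?_⟩
      rw [nsmul_eq_mul] at h1
      linarith
    exact_mod_cast h2)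
  obtain ⟨I, rfl⟩ := Associates.mk_surjective b
  rw [← Associates.mk_pow, Associates.mk_eq_mk_iff_associated, associated_iff_eq] at hb
  have hI0 : I ≠ ⊥ := by
    rintro rfl
    apply hspan
    rw [hb]
    exact zero_pow hp.ne_zero
  have hImem : I ∈ (Ideal (𝓞 K))⁰ := mem_nonZeroDivisors_of_ne_zero hI0
  have hcl1 : (ClassGroup.mk0 ⟨I, hImem⟩ : ClassGroup (𝓞 K)) ^ p = 1 := by
    rw [← map_pow]
    have h3 : (⟨I, hImem⟩ : (Ideal (𝓞 K))⁰) ^ p = ⟨I ^ p, pow_mem hImem p⟩ := rfl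
    rw [h3, ClassGroup.mk0_eq_one_iff]
    exact ⟨n, by rw [← hb]⟩
  have hcl2 : (ClassGroup.mk0 ⟨I, hImem⟩ : ClassGroup (𝓞 K)) ^ classNumber K = 1 := by
    have := pow_card_eq_one (x := (ClassGroup.mk0 ⟨I, hImem⟩ : ClassGroup (𝓞 K)))
    exact this
  have hcop : Nat.Coprime p (classNumber K) := (Nat.Prime.coprime_iff_not_dvd hp).2 hcl
  have hone : (ClassGroup.mk0 ⟨I, hImem⟩ : ClassGroup (𝓞 K)) = 1 := by
    have h4 := orderOf_dvd_of_pow_eq_one hcl1
    have h5 := orderOf_dvd_of_pow_eq_one hcl2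
    have h6 := Nat.dvd_gcd h4 h5
    rw [hcop.gcd_eq_one, Nat.dvd_one] at h6
    exact orderOf_eq_one_iff.1 h6
  rw [ClassGroup.mk0_eq_one_iff] at hone
  obtain ⟨a, ha⟩ := hone
  have ha' : I = Ideal.span {a} := ha
  rw [ha', Ideal.span_singleton_pow, Ideal.span_singleton_eq_span_singleton] at hb
  obtain ⟨u, hu⟩ := hb.symm
  exact ⟨u, a, by rw [← hu]; ring⟩

theorem L1 {K : Type} [Field K] [NumberField K] {p : ℕ} (hp : p.Prime)
    (hcl : ¬ p ∣ classNumber K) {r : K} (hr : r ≠ 0)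
    (h : ∀ v : HeightOneSpectrum (𝓞 K), ∃ γ : WithZero (Multiplicative ℤ),
      v.valuation K r = γ ^ p) :
    ∃ (u : (𝓞 K)ˣ) (a : K), r = algebraMap (𝓞 K) K u * a ^ p := by
  obtain ⟨a, b, hb, hab⟩ := IsFractionRing.div_surjective (A := 𝓞 K) r
  have hb0 : b ≠ 0 := nonZeroDivisors.ne_zero hb
  have hbK : algebraMap (𝓞 K) K b ≠ 0 := by
    rw [Ne, FaithfulSMul.algebraMap_eq_zero_iff]; exact hb0
  have ha0 : a ≠ 0 := by
    rintro rfl
    apply hr
    rw [← hab, map_zero, zero_div]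
  have hp1 : p = (p - 1) + 1 := by have := hp.one_lt; omega
  have hn : algebraMap (𝓞 K) K (a * b ^ (p - 1)) = r * (algebraMap (𝓞 K) K b) ^ p := by
    rw [← hab, map_mul, map_pow, hp1, pow_succ, Nat.add_sub_cancel]
    field_simp
  obtain ⟨u, c, hc⟩ := L1_int hp hcl (n := a * b ^ (p - 1))
    (mul_ne_zero ha0 (pow_ne_zero _ hb0)) (by
      intro v
      obtain ⟨γ, hγ⟩ := h v
      refine ⟨γ * v.valuation K (algebraMap (𝓞 K) K b), ?_⟩
      rw [← HeightOneSpectrum.valuation_of_algebraMap (K := K)]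
      show v.valuation K (algebraMap (𝓞 K) K (a * b ^ (p - 1))) = _
      rw [hn, map_mul, hγ, map_pow, mul_pow])
  refine ⟨u, algebraMap (𝓞 K) K c / algebraMap (𝓞 K) K b, ?_⟩
  rw [hc, map_mul, map_pow] at hn
  rw [div_pow]
  field_simp
  rw [← hn]

/-! ### The local lemma -/

theorem mlt {Γ : Type} [LinearOrderedCommGroupWithZero Γ] {a b : Γ} (ha : a ≤ 1) (hb : b < 1) :
    a * b < 1 := (mul_le_of_le_one_left zero_le ha).trans_lt hb

theorem vnat {K Γ : Type} [Field K] [LinearOrderedCommGroupWithZero Γ] (v : Valuation K Γ)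
    (n : ℕ) : v (n : K) ≤ 1 := by
  have h := ((n : v.integer)).2
  rw [Valuation.mem_integer_iff] at h
  push_cast at h
  exact h

theorem A1 {K Γ : Type} [Field K] [LinearOrderedCommGroupWithZero Γ] (v : Valuation K Γ) {p : ℕ}
    (hp : p.Prime) (hodd : p ≠ 2) {x y z : K} (hx : v x ≤ 1) (hy : v y ≤ 1)
    (hn : ¬ (v x < 1 ∧ v y < 1 ∧ v z < 1)) (h : x ^ p + y ^ p + z ^ p = 0)
    (hp1 : v (p : K) = 1 ∨ (v x = v y ∧ v y = v z)) :
    v (x + y) = 1 ∨ v (x + y) = v z ^ p := by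
  have hp0 := hp.ne_zero
  have hoddp : Odd p := hp.odd_of_ne_two hodd
  have hle : v (x + y) ≤ 1 := (v.map_add x y).trans (max_le hx hy)
  rcases hle.lt_or_eq with hlt | heq
  swap
  · exact Or.inl heq
  obtain ⟨k, hk⟩ := Polynomial.powAddExpansion
    (⟨-x, by rw [Valuation.mem_integer_iff, Valuation.map_neg]; exact hx⟩ : v.integer)
    (⟨x + y, by rw [Valuation.mem_integer_iff]; exact hle⟩ : v.integer) p
  have hk' : y ^ p = (-x) ^ p + p * (-x) ^ (p - 1) * (x + y) + (k : K) * (x + y) ^ 2 := by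
    have h1 := congrArg (fun w : v.integer => (w : K)) hk
    push_cast at h1
    rw [← h1]
    congr 1
    ring
  have heven : Even (p - 1) := by
    obtain ⟨m, hm⟩ := hoddp
    exact ⟨m, by omega⟩
  rw [hoddp.neg_pow, heven.neg_pow] at hk'
  have hz' : -z ^ p = (x + y) * (p * x ^ (p - 1) + (k : K) * (x + y)) := by
    linear_combination -h + hk'
  have hvk : v (k : K) ≤ 1 := k.2
  have hks : v ((k : K) * (x + y)) < 1 := by
    rw [map_mul]
    exact mlt hvk hlt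
  -- `v x = 1`
  have hvx : v x = 1 := by
    rcases hx.lt_or_eq with h2 | h2
    · exfalso
      apply hn
      have h3 : v y < 1 := by
        have h4 : v ((x + y) - x) < 1 := v.map_sub_lt hlt h2
        rwa [add_sub_cancel_left] at h4
      refine ⟨h2, h3, ?_⟩
      have h5 : v (z ^ p) < 1 := by
        have h6 : z ^ p = -(x ^ p + y ^ p) := by linear_combination h
        rw [h6, Valuation.map_neg]
        refine (v.map_add _ _).trans_lt (max_lt ?_ ?_)
        · rw [map_pow]; exact pow_lt_one₀ zero_le h2 hp0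
        · rw [map_pow]; exact pow_lt_one₀ zero_le h3 hp0
      rw [map_pow] at h5
      by_contra h7
      exact absurd h5 (not_lt.2 (one_le_pow₀ (not_lt.1 h7)))
    · exact h2
  have h8 : v (-z ^ p) = v (x + y) * v (p * x ^ (p - 1) + (k : K) * (x + y)) := by
    rw [hz', map_mul]
  rw [Valuation.map_neg, map_pow] at h8
  rcases hp1 with hp1 | hp1
  · right
    have h9 : v (p * x ^ (p - 1) + (k : K) * (x + y)) = 1 := by
      have h10 : v ((p : K) * x ^ (p - 1)) = 1 := by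
        rw [map_mul, map_pow, hp1, hvx, one_pow, one_mul]
      rw [Valuation.map_add_eq_of_lt_left _ (by rw [h10]; exact hks), h10]
    rw [h8, h9, mul_one]
  · exfalso
    have hvz : v z = 1 := by rw [← hp1.2, ← hp1.1, hvx]
    rw [hvz, one_pow] at h8
    have h11 : v (p * x ^ (p - 1) + (k : K) * (x + y)) ≤ 1 := by
      refine (v.map_add _ _).trans (max_le ?_ hks.le)
      rw [map_mul, map_pow, hvx, one_pow, mul_one]
      exact vnat v p
    have h12 := mlt h11 hlt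
    rw [mul_comm, ← h8] at h12
    exact lt_irrefl _ h12

theorem A2 {K Γ : Type} [Field K] [LinearOrderedCommGroupWithZero Γ] (v : Valuation K Γ) {p : ℕ}
    (hp : p.Prime) (hodd : p ≠ 2) {x y z w : K} (hw : w ≠ 0) (hx : v x ≤ v w) (hy : v y ≤ v w)
    (hn : v x = v w ∨ v y = v w ∨ v z = v w) (h : x ^ p + y ^ p + z ^ p = 0)
    (hp1 : v (p : K) = 1 ∨ (v x = v y ∧ v y = v z)) (hxy : x + y ≠ 0) :
    ∃ γ : Γ, γ ≠ 0 ∧ v (x + y) = v w * γ ^ p := by
  have hvw : v w ≠ 0 := (Valuation.ne_zero_iff v).2 hw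
  have hvw' : 0 < v w := zero_lt_iff.2 hvw
  have h1 := A1 v hp hodd (x := x / w) (y := y / w) (z := z / w)
    (by rw [map_div₀]; exact (div_le_one₀ hvw').2 hx)
    (by rw [map_div₀]; exact (div_le_one₀ hvw').2 hy)
    (by
      rintro ⟨a1, a2, a3⟩
      rw [map_div₀, div_lt_one₀ hvw'] at a1 a2 a3
      rcases hn with hn | hn | hn
      · exact absurd hn a1.ne
      · exact absurd hn a2.ne
      · exact absurd hn a3.ne)
    (by
      rw [div_pow, div_pow, div_pow, ← add_div, ← add_div, h, zero_div])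
    (by
      rcases hp1 with h2 | ⟨h2, h3⟩
      · exact Or.inl h2
      · right
        rw [map_div₀, map_div₀, map_div₀, h2, h3]
        exact ⟨rfl, rfl⟩)
  rw [← add_div, map_div₀] at h1
  have hv0 : v (x + y) ≠ 0 := (Valuation.ne_zero_iff v).2 hxy
  rcases h1 with h1 | h1
  · refine ⟨1, one_ne_zero, ?_⟩
    rw [one_pow, mul_one]
    exact (div_eq_one_iff_eq hvw).1 h1
  · refine ⟨v (z / w), ?_, ?_⟩
    · intro h0
      rw [h0, zero_pow hp.ne_zero, div_eq_zero_iff] at h1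
      rcases h1 with h1 | h1
      · exact hv0 h1
      · exact hvw h1
    · rw [← h1]
      field_simp

/-! ### The residue field -/

section res

variable {K Γ : Type} [Field K] [LinearOrderedCommGroupWithZero Γ] (v : Valuation K Γ)

theorem res_zero (x : v.valuationSubring) :
    IsLocalRing.residue v.valuationSubring x = 0 ↔ v (x : K) < 1 := by
  rw [IsLocalRing.residue_eq_zero_iff, IsLocalRing.mem_maximalIdeal, mem_nonunits_iff]
  have hx : v (x : K) ≤ 1 := x.2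
  constructor
  · intro h
    by_contra hc
    have h1 : v (x : K) = 1 := le_antisymm hx (not_lt.1 hc)
    apply h
    have h0 : (x : K) ≠ 0 := by
      intro h2
      rw [h2, map_zero] at h1
      exact zero_ne_one h1
    have h2 : v (x : K)⁻¹ ≤ 1 := by rw [map_inv₀, h1, inv_one]
    exact IsUnit.of_mul_eq_one ⟨(x : K)⁻¹, h2⟩ (Subtype.ext (mul_inv_cancel₀ h0))
  · intro h hu
    obtain ⟨y, hy⟩ := isUnit_iff_exists_inv.1 hu
    have h1 : (x : K) * (y : K) = 1 := congrArg Subtype.val hy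
    have h2 : v (y : K) ≤ 1 := y.2
    have h3 := mlt h2 h
    rw [mul_comm, ← map_mul, h1, map_one] at h3
    exact lt_irrefl _ h3

theorem core {p : ℕ} (hp : p.Prime) (hodd : p ≠ 2)
    (h2 : ∀ a b c : K, v a ≤ 1 → v b ≤ 1 → v c ≤ 1 → v (a ^ p + b ^ p + c ^ p) < 1 →
      v a < 1 ∨ v b < 1 ∨ v c < 1)
    (h3 : ∀ a : K, v a ≤ 1 → ¬ v ((p : K) - a ^ p) < 1)
    {X Y Z A B C e1 e2 e3 d1 d2 d3 : K}
    (hX : v X < 1) (hY : v Y ≤ 1) (hZ : v Z ≤ 1) (hA : v A ≤ 1) (hB : v B ≤ 1) (hC : v C ≤ 1)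
    (he1 : v e1 = 1) (he2 : v e2 = 1) (he3 : v e3 = 1)
    (hd1 : v d1 ≤ 1) (hd2 : v d2 ≤ 1) (hd3 : v d3 ≤ 1)
    (f1 : v (e1 - d1 ^ p) < 1) (f2 : v (e2 - d2 ^ p) < 1) (f3 : v (e3 - d3 ^ p) < 1)
    (hn : ¬ (v X < 1 ∧ v Y < 1 ∧ v Z < 1)) (hA0 : A ≠ 0) (hC0 : C ≠ 0)
    (h : X ^ p + Y ^ p + Z ^ p = 0) (g1 : Y + Z = e1 * A ^ p) (g2 : Z + X = e2 * B ^ p)
    (g3 : X + Y = e3 * C ^ p) : False := by
  have hp0 := hp.ne_zero
  have hoddp : Odd p := hp.odd_of_ne_two hodd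
  have heven : Even (p - 1) := by
    obtain ⟨m, hm⟩ := hoddp
    exact ⟨m, by omega⟩
  set V := v.valuationSubring with hV
  set π := IsLocalRing.residue V with hπ
  -- the lifts
  let X' : V := ⟨X, hX.le⟩
  let Y' : V := ⟨Y, hY⟩
  let Z' : V := ⟨Z, hZ⟩
  let A' : V := ⟨A, hA⟩
  let B' : V := ⟨B, hB⟩
  let C' : V := ⟨C, hC⟩
  let E1 : V := ⟨e1, he1.le⟩
  let E2 : V := ⟨e2, he2.le⟩
  let E3 : V := ⟨e3, he3.le⟩
  let D1 : V := ⟨d1, hd1⟩
  let D2 : V := ⟨d2, hd2⟩
  let D3 : V := ⟨d3, hd3⟩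
  have hX0 : π X' = 0 := (res_zero v X').2 hX
  have k1 : π E1 = π D1 ^ p := by
    have := (res_zero v (E1 - D1 ^ p)).2 f1
    rw [map_sub, map_pow] at this
    exact sub_eq_zero.1 this
  have k2 : π E2 = π D2 ^ p := by
    have := (res_zero v (E2 - D2 ^ p)).2 f2
    rw [map_sub, map_pow] at this
    exact sub_eq_zero.1 this
  have k3 : π E3 = π D3 ^ p := by
    have := (res_zero v (E3 - D3 ^ p)).2 f3
    rw [map_sub, map_pow] at this
    exact sub_eq_zero.1 this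
  have hE1 : π E1 ≠ 0 := fun h0 => by
    have := (res_zero v E1).1 h0
    exact absurd he1 this.ne
  have hE3 : π E3 ≠ 0 := fun h0 => by
    have := (res_zero v E3).1 h0
    exact absurd he3 this.ne
  have H : X' ^ p + Y' ^ p + Z' ^ p = 0 := Subtype.ext h
  have G1 : Y' + Z' = E1 * A' ^ p := Subtype.ext g1
  have G2 : Z' + X' = E2 * B' ^ p := Subtype.ext g2
  have G3 : X' + Y' = E3 * C' ^ p := Subtype.ext g3
  have H' := congrArg π H
  have G1' := congrArg π G1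
  have G2' := congrArg π G2
  have G3' := congrArg π G3
  rw [map_add, map_add, map_pow, map_pow, map_pow, hX0, zero_pow hp0, zero_add, map_zero] at H'
  rw [map_add, map_mul, map_pow] at G1' G2' G3'
  rw [hX0, add_zero] at G2'
  rw [hX0, zero_add] at G3'
  -- not both zero
  have hYZ : π Y' ≠ 0 := by
    intro h0
    rw [h0, zero_pow hp0, zero_add] at H'
    have h1 : π Z' = 0 := pow_eq_zero_iff hp0 |>.1 H'
    exact hn ⟨hX, (res_zero v Y').1 h0, (res_zero v Z').1 h1⟩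
  have hZ0 : π Z' ≠ 0 := by
    intro h0
    rw [h0, zero_pow hp0, add_zero] at H'
    exact hYZ (pow_eq_zero_iff hp0 |>.1 H')
  -- the sum of three p-th powers
  have hs : v ((d2 * B) ^ p + (d3 * C) ^ p + (-(d1 * A)) ^ p) < 1 := by
    have h0 : π ((D2 * B') ^ p + (D3 * C') ^ p + (-(D1 * A')) ^ p) = 0 := by
      rw [map_add, map_add, map_pow, map_pow, map_pow, map_neg, map_mul, map_mul, map_mul,
        hoddp.neg_pow, mul_pow, mul_pow, mul_pow, ← k1, ← k2, ← k3, ← G1', ← G2', ← G3']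
      ring
    exact (res_zero v _).1 h0
  have hle : ∀ {a b : K}, v a ≤ 1 → v b ≤ 1 → v (a * b) ≤ 1 := fun ha hb => by
    rw [map_mul]; exact mul_le_one' ha hb
  rcases h2 (d2 * B) (d3 * C) (-(d1 * A)) (hle hd2 hB) (hle hd3 hC)
    (by rw [Valuation.map_neg]; exact hle hd1 hA) hs with h4 | h4 | h4
  · have h5 : π (D2 * B') = 0 := (res_zero v _).2 h4
    apply hZ0
    rw [G2', k2, ← mul_pow, ← map_mul, h5, zero_pow hp0]
  · have h5 : π (D3 * C') = 0 := (res_zero v _).2 h4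
    apply hYZ
    rw [G3', k3, ← mul_pow, ← map_mul, h5, zero_pow hp0]
  · rw [Valuation.map_neg] at h4
    have h5 : π (D1 * A') = 0 := (res_zero v _).2 h4
    have h6 : π Y' + π Z' = 0 := by
      rw [G1', k1, ← mul_pow, ← map_mul, h5, zero_pow hp0]
    -- first p-th power
    obtain ⟨k, hk⟩ := Polynomial.powAddExpansion (-Y') (Y' + Z') p
    rw [neg_add_cancel_left, hoddp.neg_pow, heven.neg_pow] at hk
    have hXA : (-X) ^ p = e1 * A ^ p * (p * Y ^ (p - 1) + (k : K) * (Y + Z)) := by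
      have h7 := congrArg (fun w : V => (w : K)) hk
      push_cast at h7
      have h8 : Z ^ p = -Y ^ p + p * Y ^ (p - 1) * (Y + Z) + (k : K) * (Y + Z) ^ 2 := h7
      rw [hoddp.neg_pow, ← g1]
      linear_combination -h + h8
    have hα : (-X / A) ^ p = e1 * (p * Y ^ (p - 1) + (k : K) * (Y + Z)) := by
      rw [div_pow, hXA]
      field_simp
    have hvα : v (-X / A) ≤ 1 := by
      have h9 : v (-X / A) ^ p ≤ 1 := by
        rw [← map_pow, hα, map_mul, he1, one_mul]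
        exact (E1 * 0 + ((p : V) * Y' ^ (p - 1) + k * (Y' + Z'))).2.trans_eq' (by simp [E1, Y', Z'])
      exact (pow_le_one_iff_of_nonneg zero_le hp0).1 h9
    let α : V := ⟨-X / A, hvα⟩
    have Hα : α ^ p = E1 * (p * Y' ^ (p - 1) + k * (Y' + Z')) := Subtype.ext hα
    have Hα' := congrArg π Hα
    rw [map_pow, map_mul, map_add, map_mul, map_mul, map_add, h6, mul_zero, add_zero, map_pow,
      map_natCast] at Hα'
    -- second p-th power
    have hvC : v C = 1 := by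
      by_contra hc
      have h10 : π C' = 0 := (res_zero v _).2 (lt_of_le_of_ne hC hc)
      apply hYZ
      rw [G3', h10, zero_pow hp0, mul_zero]
    have hvγ : v (-Z / C) ≤ 1 := by
      rw [map_div₀, hvC, div_one, Valuation.map_neg]; exact hZ
    let γ : V := ⟨-Z / C, hvγ⟩
    have hγ : e3 * (X ^ p + Y ^ p) = (-Z / C) ^ p * (X + Y) := by
      rw [g3, div_pow, hoddp.neg_pow]
      field_simp
      linear_combination e3 * h
    have Hγ : E3 * (X' ^ p + Y' ^ p) = γ ^ p * (X' + Y') := Subtype.ext hγ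
    have Hγ' := congrArg π Hγ
    rw [map_mul, map_add, map_pow, map_pow, map_mul, map_pow, map_add, hX0, zero_pow hp0,
      zero_add, zero_add] at Hγ'
    have Hγ'' : π E3 * π Y' ^ (p - 1) = π γ ^ p := by
      have h11 : π Y' ^ p = π Y' ^ (p - 1) * π Y' := by
        rw [← pow_succ]; congr 1; have := hp.one_lt; omega
      rw [h11, ← mul_assoc] at Hγ'
      exact mul_right_cancel₀ hYZ Hγ'
    have hγ0 : π γ ≠ 0 := by
      intro h12
      rw [h12, zero_pow hp0] at Hγ''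
      rcases mul_eq_zero.1 Hγ'' with h13 | h13
      · exact hE3 h13
      · exact hYZ (pow_eq_zero_iff (by have := hp.one_lt; omega) |>.1 h13)
    have hD1 : π D1 ≠ 0 := by
      intro h12
      rw [h12, zero_pow hp0] at k1
      exact hE1 k1
    -- the contradiction
    have hfin : (p : IsLocalRing.ResidueField V) * (π D1 * π γ) ^ p = (π α * π D3) ^ p := by
      rw [mul_pow, mul_pow, ← k1, ← k3, ← Hγ'', Hα']
      ring
    obtain ⟨τ, hτ⟩ := IsLocalRing.residue_surjective (R := V) ((π α * π D3) / (π D1 * π γ))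
    have hτ' : π ((p : V) - τ ^ p) = 0 := by
      rw [map_sub, map_natCast, map_pow]
      have h14 : π τ = (π α * π D3) / (π D1 * π γ) := hτ
      rw [h14, div_pow, ← hfin]
      have h15 : (π D1 * π γ) ^ p ≠ 0 := pow_ne_zero _ (mul_ne_zero hD1 hγ0)
      field_simp
      ring
    exact h3 τ τ.2 ((res_zero v _).1 hτ')

end res

/-! ### The theorem -/

theorem A3 {K Γ : Type} [Field K] [LinearOrderedCommGroupWithZero Γ] (v : Valuation K Γ) {p : ℕ}
    (hp : p.Prime) (hodd : p ≠ 2) {x y z : K} (hx : x ≠ 0) (hy : y ≠ 0) (hz : z ≠ 0)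
    (h : x ^ p + y ^ p + z ^ p = 0) (hp1 : v (p : K) = 1 ∨ (v x = v y ∧ v y = v z))
    (hxy : x + y ≠ 0) (hyz : y + z ≠ 0) (hzx : z + x ≠ 0) :
    ∃ w : K, w ≠ 0 ∧ v x ≤ v w ∧ v y ≤ v w ∧ v z ≤ v w ∧
      (v x = v w ∨ v y = v w ∨ v z = v w) ∧
      (∃ γ : Γ, γ ≠ 0 ∧ v (x + y) = v w * γ ^ p) ∧
      (∃ γ : Γ, γ ≠ 0 ∧ v (y + z) = v w * γ ^ p) ∧
      (∃ γ : Γ, γ ≠ 0 ∧ v (z + x) = v w * γ ^ p) := by
  have key : ∀ w : K, w ≠ 0 → v x ≤ v w → v y ≤ v w → v z ≤ v w →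
      (v x = v w ∨ v y = v w ∨ v z = v w) →
      ((∃ γ : Γ, γ ≠ 0 ∧ v (x + y) = v w * γ ^ p) ∧
      (∃ γ : Γ, γ ≠ 0 ∧ v (y + z) = v w * γ ^ p) ∧
      (∃ γ : Γ, γ ≠ 0 ∧ v (z + x) = v w * γ ^ p)) := by
    intro w hw h1 h2 h3 h4
    refine ⟨A2 v hp hodd hw h1 h2 h4 h hp1 hxy,
      A2 v hp hodd (x := y) (y := z) (z := x) hw h2 h3 (by tauto)
      (by linear_combination h) ?_ hyz,
      A2 v hp hodd (x := z) (y := x) (z := y) hw h3 h1 (by tauto)
      (by linear_combination h) ?_ hzx⟩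
    · rcases hp1 with h5 | ⟨h5, h6⟩
      · exact Or.inl h5
      · right; exact ⟨h6, by rw [← h6, ← h5]⟩
    · rcases hp1 with h5 | ⟨h5, h6⟩
      · exact Or.inl h5
      · right; exact ⟨by rw [← h6, ← h5], h5⟩
  rcases le_total (v x) (v y) with h1 | h1 <;> rcases le_total (v y) (v z) with h2 | h2 <;>
    rcases le_total (v x) (v z) with h3 | h3
  · exact ⟨z, hz, h3, h2, le_rfl, by tauto, key z hz h3 h2 le_rfl (by tauto)⟩
  · exact ⟨z, hz, h1.trans h2, h2, le_rfl, by tauto, key z hz (h1.trans h2) h2 le_rfl (by tauto)⟩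
  · exact ⟨y, hy, h1, le_rfl, h2, by tauto, key y hy h1 le_rfl h2 (by tauto)⟩
  · exact ⟨y, hy, h1, le_rfl, h2, by tauto, key y hy h1 le_rfl h2 (by tauto)⟩
  · exact ⟨z, hz, h3, h2, le_rfl, by tauto, key z hz h3 h2 le_rfl (by tauto)⟩
  · exact ⟨x, hx, le_rfl, h1, h3, by tauto, key x hx le_rfl h1 h3 (by tauto)⟩
  · exact ⟨x, hx, le_rfl, h1, h2.trans h1, by tauto, key x hx le_rfl h1 (h2.trans h1) (by tauto)⟩
  · exact ⟨x, hx, le_rfl, h1, h3, by tauto, key x hx le_rfl h1 h3 (by tauto)⟩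

theorem approx {K Γ : Type} [Field K] [LinearOrderedCommGroupWithZero Γ] (v : Valuation K Γ)
    {a b : K} (ha : v a ≤ 1) (hab : v (b - a) < 1) :
    v b ≤ 1 ∧ (v b < 1 → v a < 1) ∧ ∀ n : ℕ, v (b ^ n - a ^ n) < 1 := by
  have hb : v b ≤ 1 := by
    have h1 : b = (b - a) + a := by ring
    rw [h1]
    exact (v.map_add _ _).trans (max_le hab.le ha)
  refine ⟨hb, ?_, ?_⟩
  · intro h2
    have h1 : a = b - (b - a) := by ring
    rw [h1]
    exact v.map_sub_lt h2 hab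
  · intro n
    let a' : v.valuationSubring := ⟨a, ha⟩
    let b' : v.valuationSubring := ⟨b, hb⟩
    have h1 : IsLocalRing.residue _ (b' - a') = 0 := (res_zero v _).2 hab
    have h2 : IsLocalRing.residue _ (b' ^ n - a' ^ n) = 0 := by
      rw [map_sub] at h1
      rw [map_sub, map_pow, map_pow, sub_eq_zero.1 h1, sub_self]
    exact (res_zero v _).1 h2

theorem main_thm (K : Type) [Field K] [NumberField K] {p : ℕ} (hp : p.Prime) (hodd : p ≠ 2)
    (Q : HeightOneSpectrum (𝓞 K))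
    (h1 : ∀ r : K, Q.valuation K r = 1 →
      (∀ P : HeightOneSpectrum (𝓞 K), ∃ γ : WithZero (Multiplicative ℤ),
        P.valuation K r = γ ^ p) →
      ∃ d : K, Q.valuation K (r - d ^ p) < 1)
    (h2 : ∀ a b c : 𝓞 K, a ^ p + b ^ p + c ^ p ∈ Q.asIdeal →
      a ∈ Q.asIdeal ∨ b ∈ Q.asIdeal ∨ c ∈ Q.asIdeal)
    (h3 : ∀ a : 𝓞 K, (p : 𝓞 K) - a ^ p ∉ Q.asIdeal)
    {x y z : K} (hx : x ≠ 0) (hy : y ≠ 0) (hz : z ≠ 0) (h : x ^ p + y ^ p + z ^ p = 0)
    (hfc : ∀ P : HeightOneSpectrum (𝓞 K), (p : 𝓞 K) ∈ P.asIdeal →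
      P.valuation K x = P.valuation K y ∧ P.valuation K y = P.valuation K z) : False := by
  have hp0 := hp.ne_zero
  have hoddp : Odd p := hp.odd_of_ne_two hodd
  have hsum : ∀ {s t r : K}, r ≠ 0 → s ^ p + t ^ p + r ^ p = 0 → s + t ≠ 0 := by
    intro s t r hr h0 h1
    have h2 : t = -s := by linear_combination h1
    rw [h2, hoddp.neg_pow, add_neg_cancel, zero_add] at h0
    exact hr (pow_eq_zero_iff hp0 |>.1 h0)
  have hxy : x + y ≠ 0 := hsum hz h
  have hyz : y + z ≠ 0 := hsum hx (by linear_combination h)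
  have hzx : z + x ≠ 0 := hsum hy (by linear_combination h)
  have hp1 : ∀ P : HeightOneSpectrum (𝓞 K), P.valuation K (p : K) = 1 ∨
      (P.valuation K x = P.valuation K y ∧ P.valuation K y = P.valuation K z) := by
    intro P
    by_cases hP : (p : 𝓞 K) ∈ P.asIdeal
    · exact Or.inr (hfc P hP)
    · left
      have := (HeightOneSpectrum.valuation_eq_one_iff_notMem (K := K) (v := P)
        (r := (p : 𝓞 K))).2 hP
      rwa [map_natCast] at this
  have hA := fun P : HeightOneSpectrum (𝓞 K) =>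
    A3 (P.valuation K) hp hodd hx hy hz h (hp1 P) hxy hyz hzx
  -- the quotients are units at `Q` times p-th powers
  have hL : ∀ r : K, r ≠ 0 → (∀ P : HeightOneSpectrum (𝓞 K),
      ∃ γ : WithZero (Multiplicative ℤ), P.valuation K r = γ ^ p) →
      ∃ e d a : K, Q.valuation K e = 1 ∧ Q.valuation K d ≤ 1 ∧ Q.valuation K (e - d ^ p) < 1 ∧
        r = e * a ^ p := by
    intro r hr hP
    obtain ⟨γ, hγ⟩ := hP Q
    have hγ0 : γ ≠ 0 := by
      rintro rfl
      rw [zero_pow hp0] at hγ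
      exact hr ((map_eq_zero _).1 hγ)
    obtain ⟨c, hc⟩ := HeightOneSpectrum.valuation_surjective (K := K) Q γ
    have hc' : Q.valuation K c = γ := hc
    have hc0 : c ≠ 0 := by
      rintro rfl
      rw [map_zero] at hc'
      exact hγ0 hc'.symm
    have hv1 : Q.valuation K (r / c ^ p) = 1 := by
      rw [map_div₀, map_pow, hc', hγ, div_self (pow_ne_zero _ hγ0)]
    obtain ⟨d, hd⟩ := h1 (r / c ^ p) hv1 (by
      intro P
      obtain ⟨δ, hδ⟩ := hP P
      exact ⟨δ / P.valuation K c, by rw [map_div₀, map_pow, hδ, div_pow]⟩)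
    refine ⟨r / c ^ p, d, c, hv1, ?_, hd, ?_⟩
    · have h4 : d ^ p = r / c ^ p - (r / c ^ p - d ^ p) := by ring
      have h5 : Q.valuation K d ^ p ≤ 1 := by
        rw [← map_pow, h4]
        exact ((Q.valuation K).map_sub _ _).trans (max_le hv1.le hd.le)
      exact (pow_le_one_iff_of_nonneg zero_le hp0).1 h5
    · have h4 : c ^ p ≠ 0 := pow_ne_zero _ hc0
      field_simp
  have hr1 := by
    refine hL ((y + z) / (x + y)) (div_ne_zero hyz hxy) fun P => ?_
    obtain ⟨w, hw, -, -, -, -, ⟨γ3, hγ3, e3⟩, ⟨γ1, hγ1, e1⟩, -⟩ := hA P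
    refine ⟨γ1 / γ3, ?_⟩
    have hvw : P.valuation K w ≠ 0 := (Valuation.ne_zero_iff _).2 hw
    rw [map_div₀, e1, e3, div_pow]
    field_simp
  have hr2 := by
    refine hL ((z + x) / (x + y)) (div_ne_zero hzx hxy) fun P => ?_
    obtain ⟨w, hw, -, -, -, -, ⟨γ3, hγ3, e3⟩, -, ⟨γ2, hγ2, e2⟩⟩ := hA P
    refine ⟨γ2 / γ3, ?_⟩
    have hvw : P.valuation K w ≠ 0 := (Valuation.ne_zero_iff _).2 hw
    rw [map_div₀, e2, e3, div_pow]
    field_simp
  obtain ⟨e1, d1, a, he1, hd1, f1, hu1⟩ := hr1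
  obtain ⟨e2, d2, b, he2, hd2, f2, hu2⟩ := hr2
  set v := Q.valuation K with hv
  have hvlt : ∀ r : 𝓞 K, v (algebraMap (𝓞 K) K r) < 1 ↔ r ∈ Q.asIdeal :=
    fun r => HeightOneSpectrum.valuation_lt_one_iff_mem Q r
  have happ : ∀ s : K, v s ≤ 1 → ∃ r : 𝓞 K, v (algebraMap (𝓞 K) K r - s) < 1 := by
    intro s hs
    obtain ⟨r, hr⟩ := HeightOneSpectrum.exists_valuation_sub_lt_of_integer Q hs 1
    exact ⟨r, by simpa using hr⟩
  have H2 : ∀ a b c : K, v a ≤ 1 → v b ≤ 1 → v c ≤ 1 → v (a ^ p + b ^ p + c ^ p) < 1 →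
      v a < 1 ∨ v b < 1 ∨ v c < 1 := by
    intro a b c ha hb hc habc
    obtain ⟨a', ha'⟩ := happ a ha
    obtain ⟨b', hb'⟩ := happ b hb
    obtain ⟨c', hc'⟩ := happ c hc
    obtain ⟨-, ia, ja⟩ := approx v ha ha'
    obtain ⟨-, ib, jb⟩ := approx v hb hb'
    obtain ⟨-, ic, jc⟩ := approx v hc hc'
    have h4 : a' ^ p + b' ^ p + c' ^ p ∈ Q.asIdeal := by
      have h7 : algebraMap (𝓞 K) K (a' ^ p + b' ^ p + c' ^ p) = (algebraMap (𝓞 K) K a') ^ p +
          (algebraMap (𝓞 K) K b') ^ p + (algebraMap (𝓞 K) K c') ^ p := by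
        simp only [map_add, map_pow]
      rw [← hvlt, h7]
      have h5 : (algebraMap (𝓞 K) K a') ^ p + (algebraMap (𝓞 K) K b') ^ p +
          (algebraMap (𝓞 K) K c') ^ p = (((algebraMap (𝓞 K) K a') ^ p - a ^ p) +
          ((algebraMap (𝓞 K) K b') ^ p - b ^ p)) + (((algebraMap (𝓞 K) K c') ^ p - c ^ p) +
          (a ^ p + b ^ p + c ^ p)) := by ring
      rw [h5]
      exact v.map_add_lt (v.map_add_lt (ja p) (jb p)) (v.map_add_lt (jc p) habc)
    rcases h2 a' b' c' h4 with h6 | h6 | h6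
    · exact Or.inl (ia ((hvlt _).2 h6))
    · exact Or.inr (Or.inl (ib ((hvlt _).2 h6)))
    · exact Or.inr (Or.inr (ic ((hvlt _).2 h6)))
  have H3 : ∀ a : K, v a ≤ 1 → ¬ v ((p : K) - a ^ p) < 1 := by
    intro a ha hlt
    obtain ⟨a', ha'⟩ := happ a ha
    obtain ⟨-, -, ja⟩ := approx v ha ha'
    apply h3 a'
    have h7 : algebraMap (𝓞 K) K ((p : 𝓞 K) - a' ^ p) = (p : K) - (algebraMap (𝓞 K) K a') ^ p := by
      simp only [map_sub, map_pow, map_natCast]
    rw [← hvlt, h7]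
    have h5 : (p : K) - (algebraMap (𝓞 K) K a') ^ p =
        ((p : K) - a ^ p) - ((algebraMap (𝓞 K) K a') ^ p - a ^ p) := by ring
    rw [h5]
    exact v.map_sub_lt hlt (ja p)
  -- normalisation at `Q`
  obtain ⟨w, hw, wx, wy, wz, wm, ⟨γ3, hγ3, e3⟩, -, -⟩ := hA Q
  obtain ⟨t, ht⟩ := HeightOneSpectrum.valuation_surjective (K := K) Q γ3
  have hvw : v w ≠ 0 := (Valuation.ne_zero_iff _).2 hw
  have hvw' : 0 < v w := zero_lt_iff.2 hvw
  have ht' : v t = γ3 := ht
  have ht0 : t ≠ 0 := by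
    rintro rfl
    rw [map_zero] at ht'
    exact hγ3 ht'.symm
  set s : K := t ^ p / (x + y) with hs
  have hvs : v s = (v w)⁻¹ := by
    have hγp : γ3 ^ p ≠ 0 := pow_ne_zero _ hγ3
    rw [hs, map_div₀, map_pow, ht', e3]
    show γ3 ^ p / (v w * γ3 ^ p) = (v w)⁻¹
    rw [div_mul_cancel_right₀ hγp]
  have hs0 : s ≠ 0 := div_ne_zero (pow_ne_zero _ ht0) hxy
  have hle : ∀ {r : K}, v r ≤ v w → v (r * s) ≤ 1 := by
    intro r hr
    rw [map_mul, hvs, ← div_eq_mul_inv]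
    exact (div_le_one₀ hvw').2 hr
  have g3 : x * s + y * s = 1 * t ^ p := by
    rw [hs]; field_simp
  have g1 : y * s + z * s = e1 * (a * t) ^ p := by
    have : y * s + z * s = (y + z) / (x + y) * t ^ p := by rw [hs]; ring
    rw [this, hu1, mul_pow]; ring
  have g2 : z * s + x * s = e2 * (b * t) ^ p := by
    have : z * s + x * s = (z + x) / (x + y) * t ^ p := by rw [hs]; ring
    rw [this, hu2, mul_pow]; ring
  have hroot : ∀ {e r f : K}, v e = 1 → v f ≤ 1 → f = e * r ^ p → v r ≤ 1 := by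
    intro e r f he hf hfe
    rw [hfe, map_mul, he, one_mul, map_pow] at hf
    exact (pow_le_one_iff_of_nonneg zero_le hp0).1 hf
  have hadd : ∀ {r r' : K}, v r ≤ 1 → v r' ≤ 1 → v (r + r') ≤ 1 := fun h4 h5 =>
    (v.map_add _ _).trans (max_le h4 h5)
  have hX := hle wx
  have hY := hle wy
  have hZ := hle wz
  have hC : v t ≤ 1 := hroot (map_one v) (hadd hX hY) g3
  have hA' : v (a * t) ≤ 1 := hroot he1 (hadd hY hZ) g1
  have hB : v (b * t) ≤ 1 := hroot he2 (hadd hZ hX) g2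
  have hn : ¬ (v (x * s) < 1 ∧ v (y * s) < 1 ∧ v (z * s) < 1) := by
    rintro ⟨i1, i2, i3⟩
    rw [map_mul, hvs, ← div_eq_mul_inv, div_lt_one₀ hvw'] at i1 i2 i3
    rcases wm with wm | wm | wm
    · exact absurd wm i1.ne
    · exact absurd wm i2.ne
    · exact absurd wm i3.ne
  have hF : (x * s) ^ p + (y * s) ^ p + (z * s) ^ p = 0 := by
    rw [mul_pow, mul_pow, mul_pow, ← add_mul, ← add_mul, h, zero_mul]
  have ha0 : a ≠ 0 := by
    rintro rfl
    rw [zero_pow hp0, mul_zero, div_eq_zero_iff] at hu1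
    rcases hu1 with h4 | h4
    · exact hyz h4
    · exact hxy h4
  have hb0 : b ≠ 0 := by
    rintro rfl
    rw [zero_pow hp0, mul_zero, div_eq_zero_iff] at hu2
    rcases hu2 with h4 | h4
    · exact hzx h4
    · exact hxy h4
  have hA0 : a * t ≠ 0 := mul_ne_zero ha0 ht0
  have hB0 : b * t ≠ 0 := mul_ne_zero hb0 ht0
  have f3 : v ((1 : K) - 1 ^ p) < 1 := by
    rw [one_pow, sub_self, map_zero]
    exact zero_lt_one
  rcases H2 (x * s) (y * s) (z * s) hX hY hZ (by rw [hF, map_zero]; exact zero_lt_one)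
    with h4 | h4 | h4
  · exact core v hp hodd H2 H3 h4 hY hZ hA' hB hC he1 he2 (map_one v) hd1
      hd2 (map_one v).le f1 f2 f3 hn hA0 ht0 hF g1 g2 g3
  · exact core v hp hodd H2 H3 h4 hZ hX hB hC hA' he2 (map_one v) he1 hd2
      (map_one v).le hd1 f2 f3 f1 (fun q => hn ⟨q.2.2, q.1, q.2.1⟩) hB0 hA0 (by linear_combination hF) g2 g3 g1
  · exact core v hp hodd H2 H3 h4 hX hY hC hA' hB (map_one v) he1 he2
      (map_one v).le hd1 hd2 f3 f1 f2 (fun q => hn ⟨q.2.1, q.2.2, q.1⟩) ht0 hB0 (by linear_combination hF)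
      g3 g1 g2

/-! ### Auxiliary primes, units of imaginary quadratic fields -/

theorem main_thm' (K : Type) [Field K] [NumberField K] {p : ℕ} (hp : p.Prime) (hodd : p ≠ 2)
    (Q : HeightOneSpectrum (𝓞 K))
    (h1 : ∀ r : K, Q.valuation K r = 1 →
      (∀ P : HeightOneSpectrum (𝓞 K), ∃ γ : WithZero (Multiplicative ℤ),
        P.valuation K r = γ ^ p) →
      ∃ d : K, Q.valuation K (r - d ^ p) < 1)
    (h2 : ∀ a b c : 𝓞 K, a ^ p + b ^ p + c ^ p ∈ Q.asIdeal →
      a ∈ Q.asIdeal ∨ b ∈ Q.asIdeal ∨ c ∈ Q.asIdeal)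
    (h3 : ∀ a : 𝓞 K, (p : 𝓞 K) - a ^ p ∉ Q.asIdeal)
    {x y z : K} (hxyz : x * y * z ≠ 0) (h : x ^ p + y ^ p = z ^ p) :
    ∃ P : HeightOneSpectrum (𝓞 K), (p : 𝓞 K) ∈ P.asIdeal ∧
      ¬ (P.valuation K x = P.valuation K y ∧ P.valuation K y = P.valuation K z) := by
  by_contra hc
  have hc' : ∀ P : HeightOneSpectrum (𝓞 K), (p : 𝓞 K) ∈ P.asIdeal →
      P.valuation K x = P.valuation K y ∧ P.valuation K y = P.valuation K z := by
    intro P hP
    by_contra h4
    exact hc ⟨P, hP, h4⟩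
  have hx : x ≠ 0 := by rintro rfl; simp at hxyz
  have hy : y ≠ 0 := by rintro rfl; simp at hxyz
  have hz : z ≠ 0 := by rintro rfl; simp at hxyz
  refine main_thm K hp hodd Q h1 h2 h3 hx hy (neg_ne_zero.2 hz) ?_ (fun P hP => ?_)
  · rw [(hp.odd_of_ne_two hodd).neg_pow, h, add_neg_cancel]
  · rw [Valuation.map_neg]
    exact hc' P hP

theorem sel_of_class {K : Type} [Field K] [NumberField K] {p : ℕ} (hp : p.Prime)
    (hcl : ¬ p ∣ classNumber K) (Q : HeightOneSpectrum (𝓞 K))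
    (h1 : ∀ u : (𝓞 K)ˣ, ∃ a : 𝓞 K, (u : 𝓞 K) - a ^ p ∈ Q.asIdeal) (r : K)
    (hr : Q.valuation K r = 1) (hP : ∀ P : HeightOneSpectrum (𝓞 K),
      ∃ γ : WithZero (Multiplicative ℤ), P.valuation K r = γ ^ p) :
    ∃ d : K, Q.valuation K (r - d ^ p) < 1 := by
  have hr0 : r ≠ 0 := by
    rintro rfl
    rw [map_zero] at hr
    exact zero_ne_one hr
  obtain ⟨u, a, hua⟩ := L1 hp hcl hr0 hP
  obtain ⟨d, hd⟩ := h1 u
  have hu : Q.valuation K (algebraMap (𝓞 K) K u) = 1 := by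
    rw [HeightOneSpectrum.valuation_eq_one_iff_notMem]
    intro hu
    exact Q.isPrime.ne_top (Ideal.eq_top_of_isUnit_mem _ hu u.isUnit)
  have ha : Q.valuation K a ^ p = 1 := by
    rw [hua, map_mul, hu, one_mul, map_pow] at hr
    exact hr
  refine ⟨algebraMap (𝓞 K) K d * a, ?_⟩
  have h4 : r - (algebraMap (𝓞 K) K d * a) ^ p = algebraMap (𝓞 K) K ((u : 𝓞 K) - d ^ p) * a ^ p := by
    rw [hua, map_sub, map_pow, mul_pow]
    ring
  rw [h4, map_mul, map_pow, ha, mul_one]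
  exact (HeightOneSpectrum.valuation_lt_one_iff_mem Q _).2 hd

theorem wendt {K : Type} [Field K] [NumberField K] {p k q : ℕ} (hp : p.Prime) (hq : q.Prime)
    (hqk : q = k * p + 1) (W1 : ∀ u w : ZMod q, u ^ k = 1 → w ^ k = 1 → 1 + u + w ≠ 0)
    (W2 : (p : ZMod q) ^ k ≠ 1) (Q : HeightOneSpectrum (𝓞 K)) (hQ : Ideal.absNorm Q.asIdeal = q) :
    (∀ a b c : 𝓞 K, a ^ p + b ^ p + c ^ p ∈ Q.asIdeal →
      a ∈ Q.asIdeal ∨ b ∈ Q.asIdeal ∨ c ∈ Q.asIdeal) ∧
    (∀ a : 𝓞 K, (p : 𝓞 K) - a ^ p ∉ Q.asIdeal) := by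
  have : Fact q.Prime := ⟨hq⟩
  have : Finite (𝓞 K ⧸ Q.asIdeal) := by
    apply Nat.finite_of_card_ne_zero
    have : Nat.card (𝓞 K ⧸ Q.asIdeal) = q := by
      rw [← hQ, Ideal.absNorm_apply, Submodule.cardQuot_apply]
    rw [this]
    exact hq.ne_zero
  have := Fintype.ofFinite (𝓞 K ⧸ Q.asIdeal)
  have hcard : Fintype.card (𝓞 K ⧸ Q.asIdeal) = q := by
    rw [← Nat.card_eq_fintype_card, ← hQ, Ideal.absNorm_apply, Submodule.cardQuot_apply]
  let e : ZMod q ≃+* (𝓞 K ⧸ Q.asIdeal) := ZMod.ringEquivOfPrime _ hq hcard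
  let φ : 𝓞 K →+* ZMod q := e.symm.toRingHom.comp (Ideal.Quotient.mk Q.asIdeal)
  have hφ : ∀ a : 𝓞 K, φ a = 0 ↔ a ∈ Q.asIdeal := by
    intro a
    show e.symm (Ideal.Quotient.mk Q.asIdeal a) = 0 ↔ _
    rw [map_eq_zero_iff _ e.symm.injective, Ideal.Quotient.eq_zero_iff_mem]
  have hk0 : k ≠ 0 := by
    rintro rfl
    rw [zero_mul, zero_add] at hqk
    exact hq.one_lt.ne' hqk
  have hpow : ∀ {s : ZMod q}, s ≠ 0 → (s ^ p) ^ k = 1 := by
    intro s hs
    have h4 := ZMod.pow_card_sub_one_eq_one hs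
    rw [← pow_mul, mul_comm p k]
    have h5 : q - 1 = k * p := by omega
    rw [← h5]
    exact h4
  constructor
  · intro a b c habc
    rw [← hφ, map_add, map_add, map_pow, map_pow, map_pow] at habc
    rw [← hφ, ← hφ, ← hφ]
    by_contra hcon
    push Not at hcon
    obtain ⟨ha, hb, hc⟩ := hcon
    apply W1 ((φ b / φ a) ^ p) ((φ c / φ a) ^ p) (hpow (div_ne_zero hb ha))
      (hpow (div_ne_zero hc ha))
    rw [div_pow, div_pow]
    have h6 : φ a ^ p ≠ 0 := pow_ne_zero _ ha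
    field_simp
    rw [habc, mul_zero]
  · intro a ha
    rw [← hφ, map_sub, map_pow, map_natCast, sub_eq_zero] at ha
    by_cases h0 : φ a = 0
    · rw [h0, zero_pow hp.ne_zero, ZMod.natCast_eq_zero_iff] at ha
      have h4 := Nat.le_of_dvd hp.pos ha
      have h5 : p ≤ k * p := Nat.le_mul_of_pos_left p (Nat.pos_of_ne_zero hk0)
      omega
    · exact W2 (by rw [ha]; exact hpow h0)

theorem W_two {p q : ℕ} (hp5 : 5 ≤ p) (hq : q.Prime) (hqk : q = 2 * p + 1) :
    (∀ u w : ZMod q, u ^ 2 = 1 → w ^ 2 = 1 → 1 + u + w ≠ 0) ∧ (p : ZMod q) ^ 2 ≠ 1 := by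
  have : Fact q.Prime := ⟨hq⟩
  have h3 : (3 : ZMod q) ≠ 0 := by
    intro h
    have h4 : ((3 : ℕ) : ZMod q) = 0 := by exact_mod_cast h
    rw [ZMod.natCast_eq_zero_iff] at h4
    have := Nat.le_of_dvd (by norm_num) h4
    omega
  have h2p : (2 : ZMod q) * p = -1 := by
    have : ((2 * p + 1 : ℕ) : ZMod q) = 0 := by rw [← hqk]; exact ZMod.natCast_self q
    push_cast at this
    linear_combination this
  refine ⟨?_, ?_⟩
  · intro u w hu hw h
    have e : 2 * u + 1 = 0 := by linear_combination (1 + u - w) * h + hw - hu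
    apply h3
    linear_combination (-4) * hu + (2 * u - 1) * e
  · intro h
    apply h3
    linear_combination (2 * (p : ZMod q) - 1) * h2p - 4 * h

theorem W_four {p q : ℕ} (hp5 : 5 ≤ p) (hq : q.Prime) (hqk : q = 4 * p + 1) :
    (∀ u w : ZMod q, u ^ 4 = 1 → w ^ 4 = 1 → 1 + u + w ≠ 0) ∧ (p : ZMod q) ^ 4 ≠ 1 := by
  have : Fact q.Prime := ⟨hq⟩
  have hd : ∀ n : ℕ, q ∣ n → n = 3 ∨ n = 5 ∨ n = 17 → False := by
    intro n hn h
    have h4 := Nat.le_of_dvd (by omega) hn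
    omega
  have h15 : (15 : ZMod q) ≠ 0 := by
    intro h
    have h4 : ((3 * 5 : ℕ) : ZMod q) = 0 := by
      push_cast
      linear_combination h
    rw [ZMod.natCast_eq_zero_iff, hq.dvd_mul] at h4
    rcases h4 with h4 | h4
    · exact hd _ h4 (by norm_num)
    · exact hd _ h4 (by norm_num)
  have h255 : (255 : ZMod q) ≠ 0 := by
    intro h
    have h4 : ((3 * 5 * 17 : ℕ) : ZMod q) = 0 := by
      push_cast
      linear_combination h
    rw [ZMod.natCast_eq_zero_iff, hq.dvd_mul, hq.dvd_mul] at h4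
    rcases h4 with (h4 | h4) | h4
    · exact hd _ h4 (by norm_num)
    · exact hd _ h4 (by norm_num)
    · exact hd _ h4 (by norm_num)
  have h4p : (4 : ZMod q) * p + 1 = 0 := by
    have : ((4 * p + 1 : ℕ) : ZMod q) = 0 := by rw [← hqk]; exact ZMod.natCast_self q
    push_cast at this
    exact this
  refine ⟨?_, ?_⟩
  · intro u w hu hw h
    have h0 : (u ^ 2 - 1) * (u ^ 2 + 1) = 0 := by linear_combination hu
    rcases mul_eq_zero.1 h0 with h1 | h1
    · have e : 8 * u + 7 = 0 := by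
        linear_combination hw + (1 + u - w) * ((1 + u) ^ 2 + w ^ 2) * h - (u ^ 2 + 4 * u + 7) * h1
      apply h15
      linear_combination (-64) * h1 + (8 * u - 7) * e
    · apply h15
      linear_combination 3 * (-hw - (1 + u - w) * ((1 + u) ^ 2 + w ^ 2) * h +
        (u ^ 2 + 4 * u + 5) * h1)
  · intro h
    apply h255
    linear_combination (-256) * h + (4 * (p : ZMod q) - 1) * (16 * (p : ZMod q) ^ 2 + 1) * h4p

theorem unit_pow {K : Type} [Field K] [NumberField K] [IsTotallyComplex K]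
    (hK : Module.finrank ℚ K = 2) {p : ℕ} (hp : p.Prime) (hp5 : 5 ≤ p) (u : (𝓞 K)ˣ) :
    ∃ w : (𝓞 K)ˣ, u = w ^ p := by
  have hrank : Units.rank K = 0 := by
    have h1 := IsTotallyComplex.finrank K
    have h2 := InfinitePlace.card_eq_nrRealPlaces_add_nrComplexPlaces K
    rw [IsTotallyComplex.nrRealPlaces_eq_zero K] at h2
    unfold Units.rank
    omega
  have hcop : Nat.Coprime p (Units.torsionOrder K) := by
    rw [Nat.Prime.coprime_iff_not_dvd hp]
    intro hd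
    have : Fact p.Prime := ⟨hp⟩
    obtain ⟨ζ, hζ⟩ := exists_prime_orderOf_dvd_card' (G := Units.torsion K) p hd
    have h1 : IsPrimitiveRoot ζ p := by
      rw [← hζ]
      exact IsPrimitiveRoot.orderOf ζ
    let f : Units.torsion K →* K :=
      ((algebraMap (𝓞 K) K : 𝓞 K →* K).comp (Units.coeHom (𝓞 K))).comp (Units.torsion K).subtype
    have hf : Function.Injective f := by
      intro a b hab
      apply Subtype.ext
      apply Units.ext
      exact FaithfulSMul.algebraMap_injective (𝓞 K) K hab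
    have h2 : IsPrimitiveRoot (f ζ) p := h1.map_of_injective hf
    have h3 := Polynomial.cyclotomic_eq_minpoly_rat h2 hp.pos
    have h4 : (minpoly ℚ (f ζ)).natDegree ≤ 2 := by
      rw [← hK]
      exact minpoly.natDegree_le (f ζ)
    rw [← h3, Polynomial.natDegree_cyclotomic, Nat.totient_prime hp] at h4
    omega
  obtain ⟨⟨ζ, e⟩, hu, -⟩ := Units.exist_unique_eq_mul_prod K u
  have : IsEmpty (Fin (Units.rank K)) := by
    rw [hrank]
    infer_instance
  have hu' : u = (ζ : (𝓞 K)ˣ) := by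
    rw [hu]
    simp
  have hζ : ζ ^ Units.torsionOrder K = 1 := pow_card_eq_one'
  have hord : Nat.Coprime p (orderOf ζ) :=
    Nat.Coprime.coprime_dvd_right (orderOf_dvd_of_pow_eq_one hζ) hcop
  obtain ⟨m, hm⟩ := exists_pow_eq_self_of_coprime hord
  refine ⟨((ζ ^ m : Units.torsion K) : (𝓞 K)ˣ), ?_⟩
  rw [hu']
  nth_rewrite 1 [← hm]
  push_cast
  rw [← pow_mul, ← pow_mul, mul_comm]

/-! ### Large auxiliary primes -/

section large

open Polynomial

theorem no_common (k : ℕ) (h3 : ¬ 3 ∣ k) (u : ℂ) (hk : k ≠ 0) (h1 : u ^ k = 1)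
    (h2 : (u + 1) ^ k = (-1) ^ k) : False := by
  have n1 : ‖u‖ = 1 := by
    have h4 : ‖u‖ ^ k = 1 := by rw [← norm_pow, h1, norm_one]
    exact (pow_eq_one_iff_of_nonneg (norm_nonneg _) hk).1 h4
  have n2 : ‖u + 1‖ = 1 := by
    have h4 : ‖u + 1‖ ^ k = 1 := by rw [← norm_pow, h2, norm_pow, norm_neg, norm_one, one_pow]
    exact (pow_eq_one_iff_of_nonneg (norm_nonneg _) hk).1 h4
  have e1 : u * (starRingEnd ℂ) u = 1 := by
    rw [Complex.mul_conj, Complex.normSq_eq_norm_sq, n1]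
    norm_num
  have e2 : (u + 1) * ((starRingEnd ℂ) u + 1) = 1 := by
    have h4 : (u + 1) * (starRingEnd ℂ) (u + 1) = 1 := by
      rw [Complex.mul_conj, Complex.normSq_eq_norm_sq, n2]
      norm_num
    rwa [map_add, map_one] at h4
  have e3 : u ^ 2 + u + 1 = 0 := by linear_combination u * e2 - (u + 1) * e1
  have e4 : u ^ 3 = 1 := by linear_combination (u - 1) * e3
  have hu : u = 1 := by
    have h5 : orderOf u ∣ k := orderOf_dvd_of_pow_eq_one h1
    have h6 : orderOf u ∣ 3 := orderOf_dvd_of_pow_eq_one e4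
    rcases (Nat.dvd_prime Nat.prime_three).1 h6 with h7 | h7
    · exact orderOf_eq_one_iff.1 h7
    · exact absurd (h7 ▸ h5) h3
  rw [hu] at e3
  norm_num at e3

theorem bez (k : ℕ) (h3 : ¬ 3 ∣ k) (hk : k ≠ 0) : ∃ (A B : ℤ[X]) (N : ℤ), N ≠ 0 ∧
    A * (X ^ k - 1) + B * ((X + 1) ^ k - (-1) ^ k) = C N := by
  have hcop : IsCoprime ((X : ℚ[X]) ^ k - 1) ((X + 1) ^ k - (-1) ^ k) := by
    rw [Polynomial.isCoprime_iff_aeval_ne_zero_of_isAlgClosed ℚ ℂ]
    intro u
    by_contra hcon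
    push Not at hcon
    obtain ⟨h1, h2⟩ := hcon
    simp only [map_sub, map_pow, aeval_X, map_one, map_add, map_neg] at h1 h2
    exact no_common k h3 u hk (sub_eq_zero.1 h1) (sub_eq_zero.1 h2)
  obtain ⟨a, b, hab⟩ := hcop
  obtain ⟨m, hm, hA⟩ := IsLocalization.integerNormalization_spec (nonZeroDivisors ℤ) a
  obtain ⟨n, hn, hB⟩ := IsLocalization.integerNormalization_spec (nonZeroDivisors ℤ) b
  refine ⟨C n * IsLocalization.integerNormalization (nonZeroDivisors ℤ) a,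
    C m * IsLocalization.integerNormalization (nonZeroDivisors ℤ) b, m * n,
    mul_ne_zero (nonZeroDivisors.ne_zero hm) (nonZeroDivisors.ne_zero hn), ?_⟩
  apply Polynomial.map_injective (algebraMap ℤ ℚ) (algebraMap ℤ ℚ).injective_int
  simp only [Polynomial.map_add, Polynomial.map_mul, Polynomial.map_sub, Polynomial.map_pow,
    Polynomial.map_one, Polynomial.map_X, Polynomial.map_neg, Polynomial.map_C, hA, hB]
  have h5 : ∀ (c : ℤ) (r : ℚ[X]), c • r = C (algebraMap ℤ ℚ c) * r := by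
    intro c r
    rw [← Polynomial.smul_eq_C_mul, algebraMap_smul]
  rw [h5, h5]
  simp only [map_mul]
  linear_combination C (algebraMap ℤ ℚ m) * C (algebraMap ℤ ℚ n) * hab

theorem W_large (k : ℕ) (hk : 2 ≤ k) (h3 : ¬ 3 ∣ k) : ∃ M : ℕ, ∀ p q : ℕ, M < p → q.Prime →
    q = k * p + 1 → (∀ u w : ZMod q, u ^ k = 1 → w ^ k = 1 → 1 + u + w ≠ 0) ∧
      (p : ZMod q) ^ k ≠ 1 := by
  obtain ⟨A, B, N, hN, hAB⟩ := bez k h3 (by omega)
  refine ⟨N.natAbs + (k ^ k + 1), ?_⟩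
  intro p q hpM hq hqk
  have : Fact q.Prime := ⟨hq⟩
  have hkp : p ≤ k * p := Nat.le_mul_of_pos_left p (by omega)
  constructor
  · intro u w hu hw h
    have hw' : w = -(u + 1) := by linear_combination h
    have h4 : (u + 1) ^ k = (-1) ^ k := by
      have h5 : (-(u + 1)) ^ k = (-1) ^ k * (u + 1) ^ k := by rw [neg_pow]
      rw [hw', h5] at hw
      have h6 : ((-1 : ZMod q) ^ k) * (-1) ^ k = 1 := by
        rw [← mul_pow]; simp
      linear_combination (-1) ^ k * hw - (u + 1) ^ k * h6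
    have h7 := congrArg (Polynomial.eval₂ (Int.castRingHom (ZMod q)) u) hAB
    simp only [Polynomial.eval₂_add, Polynomial.eval₂_mul, Polynomial.eval₂_sub,
      Polynomial.eval₂_pow, Polynomial.eval₂_X, Polynomial.eval₂_one, Polynomial.eval₂_neg,
      Polynomial.eval₂_C, hu, h4, sub_self, mul_zero, add_zero] at h7
    have h8 : ((N : ℤ) : ZMod q) = 0 := h7.symm
    rw [ZMod.intCast_zmod_eq_zero_iff_dvd] at h8
    have h9 := Nat.le_of_dvd (Int.natAbs_pos.2 hN) (Int.natCast_dvd.1 h8)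
    omega
  · intro h
    have h4 : (k : ZMod q) * p = -1 := by
      have : ((k * p + 1 : ℕ) : ZMod q) = 0 := by rw [← hqk]; exact ZMod.natCast_self q
      push_cast at this
      linear_combination this
    have h5 : (k : ZMod q) ^ k = (-1) ^ k := by
      rw [← h4, mul_pow, h, mul_one]
    have h6 : (((k : ℤ) ^ k - (-1) ^ k : ℤ) : ZMod q) = 0 := by
      push_cast
      rw [h5, sub_self]
    rw [ZMod.intCast_zmod_eq_zero_iff_dvd] at h6
    have hkk : 2 * 2 ≤ k ^ k := by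
      calc 2 * 2 = 2 ^ 2 := rfl
        _ ≤ k ^ 2 := Nat.pow_le_pow_left hk 2
        _ ≤ k ^ k := Nat.pow_le_pow_right (by omega) hk
    have hkk' : (4 : ℤ) ≤ (k : ℤ) ^ k := by exact_mod_cast hkk
    have h7 : ((-1 : ℤ)) ^ k = 1 ∨ (-1 : ℤ) ^ k = -1 := neg_one_pow_eq_or ℤ k
    have h8 : (0 : ℤ) < (k : ℤ) ^ k - (-1) ^ k := by
      rcases h7 with h7 | h7 <;> rw [h7] <;> linarith
    have h9 := Int.le_of_dvd h8 h6
    have h10 : (k : ℤ) ^ k - (-1) ^ k ≤ (k : ℤ) ^ k + 1 := by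
      rcases h7 with h7 | h7 <;> rw [h7] <;> linarith
    have h11 : (q : ℤ) ≤ ((k ^ k + 1 : ℕ) : ℤ) := by
      push_cast
      linarith
    have h12 : q ≤ k ^ k + 1 := by exact_mod_cast h11
    omega

end large

/-! ### The result -/

/-- Every solution of `x ^ n + y ^ n = z ^ n` in `K` with nonzero entries has, at some prime above
`p`, valuations that are not all equal: the first case holds for the exponent `n` at `p`. -/
def FirstCaseAt (K : Type) [Field K] [NumberField K] (p n : ℕ) : Prop :=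
  ∀ x y z : K, x ^ n + y ^ n = z ^ n → x * y * z ≠ 0 →
    ∃ P : HeightOneSpectrum (𝓞 K), (p : 𝓞 K) ∈ P.asIdeal ∧
      ¬ (P.valuation K x = P.valuation K y ∧ P.valuation K y = P.valuation K z)

/-- The prime `Q` of `K` is auxiliary for `p`: every element of `K` that is a unit at `Q` and has
all its valuations divisible by `p` is congruent modulo `Q` to a `p`-th power; a sum of three
`p`-th powers lies in `Q` only if one of them does; `p` is not a `p`-th power modulo `Q`. -/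
def Auxiliary (K : Type) [Field K] [NumberField K] (p : ℕ) (Q : HeightOneSpectrum (𝓞 K)) : Prop :=
  (∀ r : K, Q.valuation K r = 1 →
    (∀ P : HeightOneSpectrum (𝓞 K), ∃ γ : WithZero (Multiplicative ℤ),
      P.valuation K r = γ ^ p) →
    ∃ d : K, Q.valuation K (r - d ^ p) < 1) ∧
  (∀ a b c : 𝓞 K, a ^ p + b ^ p + c ^ p ∈ Q.asIdeal →
    a ∈ Q.asIdeal ∨ b ∈ Q.asIdeal ∨ c ∈ Q.asIdeal) ∧
  (∀ a : 𝓞 K, (p : 𝓞 K) - a ^ p ∉ Q.asIdeal)

/-- Wendt's conditions modulo `q`: no two `k`-th roots of unity `u`, `w` have `1 + u + w = 0`, and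
`p ^ k` is not `1`. -/
def Wendt (p k q : ℕ) : Prop :=
  (∀ u w : ZMod q, u ^ k = 1 → w ^ k = 1 → 1 + u + w ≠ 0) ∧ (p : ZMod q) ^ k ≠ 1

/-- Sophie Germain's theorem over number fields (first case of Fermat's equation). -/
theorem result :
    -- (1) the general criterion
    (∀ (K : Type) [Field K] [NumberField K] (p n : ℕ), p.Prime → p ≠ 2 → n ≠ 0 → p ∣ n →
      (∃ Q, Auxiliary K p Q) → FirstCaseAt K p n) ∧
    -- (2) class number prime to `p`, an auxiliary prime of norm `k * p + 1`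
    (∀ (K : Type) [Field K] [NumberField K] (p n k q : ℕ), p.Prime → p ≠ 2 → n ≠ 0 → p ∣ n →
      ¬ p ∣ classNumber K → q.Prime → q = k * p + 1 → Wendt p k q →
      (∃ Q : HeightOneSpectrum (𝓞 K), Ideal.absNorm Q.asIdeal = q ∧
        ∀ u : (𝓞 K)ˣ, ∃ a : 𝓞 K, (u : 𝓞 K) - a ^ p ∈ Q.asIdeal) →
      FirstCaseAt K p n) ∧
    -- (3) imaginary quadratic fields, auxiliary prime `2 * p + 1` or `4 * p + 1`
    (∀ (K : Type) [Field K] [NumberField K] [IsTotallyComplex K] (p n q : ℕ),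
      Module.finrank ℚ K = 2 → p.Prime → 5 ≤ p → n ≠ 0 → p ∣ n → ¬ p ∣ classNumber K →
      q.Prime → (q = 2 * p + 1 ∨ q = 4 * p + 1) →
      (∃ Q : HeightOneSpectrum (𝓞 K), Ideal.absNorm Q.asIdeal = q) → FirstCaseAt K p n) ∧
    -- (4) imaginary quadratic fields, auxiliary prime `k * p + 1` with `k` prime to `3`, `p` large
    (∀ k : ℕ, 2 ≤ k → ¬ 3 ∣ k → ∃ M : ℕ,
      ∀ (K : Type) [Field K] [NumberField K] [IsTotallyComplex K] (p n q : ℕ),
      Module.finrank ℚ K = 2 → p.Prime → M < p → n ≠ 0 → p ∣ n → ¬ p ∣ classNumber K →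
      q.Prime → q = k * p + 1 →
      (∃ Q : HeightOneSpectrum (𝓞 K), Ideal.absNorm Q.asIdeal = q) → FirstCaseAt K p n) := by
  have h1 : ∀ (K : Type) [Field K] [NumberField K] (p n : ℕ), p.Prime → p ≠ 2 → n ≠ 0 → p ∣ n →
      (∃ Q, Auxiliary K p Q) → FirstCaseAt K p n := by
    intro K _ _ p n hp hodd hn hpn hQ x y z h hxyz
    obtain ⟨Q, c1, c2, c3⟩ := hQ
    obtain ⟨m, rfl⟩ := hpn
    have hm : m ≠ 0 := by
      rintro rfl
      exact hn (mul_zero p)
    rw [mul_comm, pow_mul, pow_mul, pow_mul] at h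
    obtain ⟨P, hP, hPn⟩ := main_thm' K hp hodd Q c1 c2 c3 (x := x ^ m) (y := y ^ m) (z := z ^ m)
      (by rw [← mul_pow, ← mul_pow]; exact pow_ne_zero _ hxyz) h
    refine ⟨P, hP, fun hc => hPn ?_⟩
    rw [map_pow, map_pow, map_pow, hc.1, hc.2]
    exact ⟨rfl, rfl⟩
  have h2 : ∀ (K : Type) [Field K] [NumberField K] (p n k q : ℕ), p.Prime → p ≠ 2 → n ≠ 0 →
      p ∣ n → ¬ p ∣ classNumber K → q.Prime → q = k * p + 1 → Wendt p k q →
      (∃ Q : HeightOneSpectrum (𝓞 K), Ideal.absNorm Q.asIdeal = q ∧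
        ∀ u : (𝓞 K)ˣ, ∃ a : 𝓞 K, (u : 𝓞 K) - a ^ p ∈ Q.asIdeal) →
      FirstCaseAt K p n := by
    intro K _ _ p n k q hp hodd hn hpn hcl hq hqk hW hQ
    obtain ⟨Q, hQ, hu⟩ := hQ
    obtain ⟨c2, c3⟩ := wendt hp hq hqk hW.1 hW.2 Q hQ
    exact h1 K p n hp hodd hn hpn ⟨Q, sel_of_class hp hcl Q hu, c2, c3⟩
  have hu : ∀ (K : Type) [Field K] [NumberField K] [IsTotallyComplex K] (p : ℕ),
      Module.finrank ℚ K = 2 → p.Prime → 5 ≤ p → ∀ (Q : HeightOneSpectrum (𝓞 K)) (u : (𝓞 K)ˣ),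
      ∃ a : 𝓞 K, (u : 𝓞 K) - a ^ p ∈ Q.asIdeal := by
    intro K _ _ _ p hK hp hp5 Q u
    obtain ⟨w, hw⟩ := unit_pow hK hp hp5 u
    refine ⟨(w : 𝓞 K), ?_⟩
    rw [hw]
    push_cast
    rw [sub_self]
    exact Q.asIdeal.zero_mem
  refine ⟨h1, h2, ?_, ?_⟩
  · intro K _ _ _ p n q hK hp hp5 hn hpn hcl hq hqk hQ
    obtain ⟨Q, hQ⟩ := hQ
    rcases hqk with hqk | hqk
    · exact h2 K p n 2 q hp (by omega) hn hpn hcl hq hqk (W_two hp5 hq hqk)
        ⟨Q, hQ, hu K p hK hp hp5 Q⟩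
    · exact h2 K p n 4 q hp (by omega) hn hpn hcl hq hqk (W_four hp5 hq hqk)
        ⟨Q, hQ, hu K p hK hp hp5 Q⟩
  · intro k hk hk3
    obtain ⟨M, hM⟩ := W_large k hk hk3
    refine ⟨M + 5, ?_⟩
    intro K _ _ _ p n q hK hp hpM hn hpn hcl hq hqk hQ
    obtain ⟨Q, hQ⟩ := hQ
    exact h2 K p n k q hp (by omega) hn hpn hcl hq hqk (hM p q (by omega) hq hqk)
      ⟨Q, hQ, hu K p hK hp (by omega) Q⟩

end Pool.Agent.Results.MP_50a406_nt.FirstCase
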