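import Mathlib
import Pool.Agent.H458.Sp.Quad5

set_option autoImplicit false

/-!
# Effective bounds for sparse quadratic points on the Fermat curves

Let `n ≥ 8` and let `x ^ n + y ^ n = z ^ n` with `x, z ≠ 0`, `y / z` irrational, in any quadratic
field `K` (if `x / z` and `y / z` are both rational it is Fermat's equation over `ℚ`; if only
`x / z` is irrational exchange `x` and `y`).  If the trace and the norm of `y / z` and
the norm of `x / z` are quotients, with a common denominator, of combinations of the same `r`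
powers of some integer `b ≥ 2` with integral coefficients of absolute value at most `B`, then the
heights of these three rational numbers are bounded by an explicit number depending only on `n`,
`r`, `B`, and not on `K` and `b`.

Method: by Dirichlet's box principle a sparse solution of large height can be deformed to a
quadratic point of the Fermat curve over `ℚ(t)`.  Such points are constant for `n ≥ 8`: the
polynomials `f0 - ζ f1 + ζ ^ 2 f2`, `ζ ^ n = 1`, where `f1 / f0` and `f2 / f0` are the trace and the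
norm of `y / z`, have a product which is an `n`-th power, at most two of them vanish at a given
point, and their multiple zeros divide the resultant of the quadratic polynomial
`f0 - Z f1 + Z ^ 2 f2` and its derivative with respect to `t`.
-/

namespace Pool.Agent.Results.MP_50a406_nt.SparseQuadratic

open Pool.Agent.H458.Sp

/-- the sparse integer with coefficients `c` and exponents `e` in base `b` -/
def sp {r : ℕ} (b : ℕ) (e : Fin r → ℕ) (c : Fin r → ℤ) : ℤ := ∑ j, c j * (b : ℤ) ^ (e j)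

/-- the height of a rational number -/
def ht (x : ℚ) : ℕ := max x.num.natAbs x.den

/-- the bound -/
def bound (n r B : ℕ) : ℕ :=
  r * B * ((2 ^ (n + 1) + 4) * (r * B) ^ n) ^ (4 * (4 * n) ^ r)

/-- two proportional polynomials with bounded coefficients have a ratio of bounded height -/
theorem ratio_bound (A F : Polynomial ℤ) (M : ℕ) (hA : ∀ k, |A.coeff k| ≤ M)
    (hF : ∀ k, |F.coeff k| ≤ M) (a w : ℤ) (hw : w ≠ 0) (hF0 : F ≠ 0)
    (h : Polynomial.C w * A = Polynomial.C a * F) : ht ((a : ℚ) / w) ≤ M := by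
  obtain ⟨k, hk⟩ : ∃ k, F.coeff k ≠ 0 := by
    by_contra hcon
    push Not at hcon
    exact hF0 (Polynomial.ext fun k => by rw [hcon k, Polynomial.coeff_zero])
  have h1 : w * A.coeff k = a * F.coeff k := by
    have := congrArg (fun g => Polynomial.coeff g k) h
    simpa only [Polynomial.coeff_C_mul] using this
  have hwQ : (w : ℚ) ≠ 0 := by exact_mod_cast hw
  have h1Q : (w : ℚ) * A.coeff k = a * F.coeff k := by exact_mod_cast h1
  have h2 : (F.coeff k : ℚ) * ((a : ℚ) / w) = A.coeff k := by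
    field_simp
    linarith
  show height _ ≤ M
  rw [height_le_iff]
  rcases lt_or_gt_of_ne hk with h9 | h9
  · refine ⟨-A.coeff k, -F.coeff k, ?_, by omega, ?_, ?_⟩
    · rw [abs_neg]
      exact hA k
    · exact (neg_le_abs _).trans (hF k)
    · push_cast
      linarith
  · exact ⟨A.coeff k, F.coeff k, hA k, by omega, (le_abs_self _).trans (hF k), h2⟩

theorem result {K : Type} [Field K] [NumberField K] (hK : Module.finrank ℚ K = 2)
    (n : ℕ) (hn : 8 ≤ n) (x y z : K) (hxyz : x ^ n + y ^ n = z ^ n) (hx : x ≠ 0) (hz : z ≠ 0)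
    (hy : ∀ a : ℚ, y / z ≠ algebraMap ℚ K a) (b : ℕ) (hb : 2 ≤ b) (r B : ℕ) (e : Fin r → ℕ)
    (c : Fin 4 → Fin r → ℤ) (hc : ∀ i j, |c i j| ≤ B) (hw : sp b e (c 0) ≠ 0)
    (h1 : Algebra.trace ℚ K (y / z) = (sp b e (c 1) : ℚ) / sp b e (c 0))
    (h2 : Algebra.norm ℚ (y / z) = (sp b e (c 2) : ℚ) / sp b e (c 0))
    (h3 : Algebra.norm ℚ (x / z) = (sp b e (c 3) : ℚ) / sp b e (c 0)) :
    ht (Algebra.trace ℚ K (y / z)) ≤ bound n r B ∧ ht (Algebra.norm ℚ (y / z)) ≤ bound n r B ∧
      ht (Algebra.norm ℚ (x / z)) ≤ bound n r B := by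
  classical
  set u := x / z with hu
  set v := y / z with hv
  have huv : u ^ n + v ^ n = 1 := by
    rw [hu, hv, div_pow, div_pow, ← add_div, hxyz, div_self (pow_ne_zero n hz)]
  have hu0 : u ≠ 0 := div_ne_zero hx hz
  -- the embeddings
  have hcard : (Finset.univ : Finset (K →ₐ[ℚ] ℂ)).card = 2 := by
    rw [Finset.card_univ, AlgHom.card, hK]
  obtain ⟨σ, τ, hστ, huniv⟩ := Finset.card_eq_two.1 hcard
  have htr : ((Algebra.trace ℚ K v : ℚ) : ℂ) = σ v + τ v := by
    have := trace_eq_sum_embeddings (K := ℚ) ℂ (x := v)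
    rw [huniv, Finset.sum_pair hστ] at this
    exact this
  have hnv : ((Algebra.norm ℚ v : ℚ) : ℂ) = σ v * τ v := by
    have := Algebra.norm_eq_prod_embeddings ℚ ℂ v
    rw [huniv, Finset.prod_pair hστ] at this
    exact this
  have hnu : ((Algebra.norm ℚ u : ℚ) : ℂ) = σ u * τ u := by
    have := Algebra.norm_eq_prod_embeddings ℚ ℂ u
    rw [huniv, Finset.prod_pair hστ] at this
    exact this
  set Z : Fin 4 → ℤ := fun i => sp b e (c i) with hZ
  have hZ0 : Z 0 ≠ 0 := hw
  have hZ0C : ((Z 0 : ℤ) : ℂ) ≠ 0 := by exact_mod_cast hZ0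
  have hZ0Q : ((Z 0 : ℤ) : ℚ) ≠ 0 := by exact_mod_cast hZ0
  have h1' : Algebra.trace ℚ K v = (Z 1 : ℚ) / (Z 0 : ℚ) := h1
  have h2' : Algebra.norm ℚ v = (Z 2 : ℚ) / (Z 0 : ℚ) := h2
  have h3' : Algebra.norm ℚ u = (Z 3 : ℚ) / (Z 0 : ℚ) := h3
  have e1 : ((Z 1 : ℤ) : ℂ) = (Z 0 : ℂ) * (σ v + τ v) := by
    rw [← htr, h1']
    push_cast
    field_simp
  have e2 : ((Z 2 : ℤ) : ℂ) = (Z 0 : ℂ) * (σ v * τ v) := by
    rw [← hnv, h2']
    push_cast
    field_simp
  have e3 : ((Z 3 : ℤ) : ℂ) = (Z 0 : ℂ) * (σ u * τ u) := by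
    rw [← hnu, h3']
    push_cast
    field_simp
  have hs : σ u ^ n + σ v ^ n = 1 := by
    rw [← map_pow, ← map_pow, ← map_add, huv, map_one]
  have ht' : τ u ^ n + τ v ^ n = 1 := by
    rw [← map_pow, ← map_pow, ← map_add, huv, map_one]
  have hZid : Z 3 ^ n = Z 0 ^ n - Vq (Z 0) (Z 1) (Z 2) n + Z 2 ^ n := by
    have hV := (Vq_eq ((Z 0 : ℤ) : ℂ) (Z 1 : ℤ) (Z 2 : ℤ) (σ v) (τ v) e1 e2 n).1
    have hVm := (Vq_map (Int.castRingHom ℂ) (Z 0) (Z 1) (Z 2) n).1
    simp only [eq_intCast] at hVm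
    have h4 : ((Z 3 : ℤ) : ℂ) ^ n = ((Z 0 : ℤ) : ℂ) ^ n -
        ((Vq (Z 0) (Z 1) (Z 2) n : ℤ) : ℂ) + ((Z 2 : ℤ) : ℂ) ^ n := by
      rw [hVm, hV, e2, e3, mul_pow, mul_pow, mul_pow, mul_pow]
      have hs' : σ u ^ n = 1 - σ v ^ n := by rw [← hs]; ring
      have ht'' : τ u ^ n = 1 - τ v ^ n := by rw [← ht']; ring
      rw [hs', ht'']
      ring
    exact_mod_cast h4
  have hZ3 : Z 3 ≠ 0 := by
    intro h
    rw [h, Int.cast_zero] at e3
    rcases mul_eq_zero.1 e3.symm with h | h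
    · exact hZ0C h
    · rcases mul_eq_zero.1 h with h | h
      · exact hu0 ((map_eq_zero σ).1 h)
      · exact hu0 ((map_eq_zero τ).1 h)
  have hirr : ¬ IsSquare (Z 1 ^ 2 - 4 * Z 0 * Z 2) := by
    rintro ⟨s, hs⟩
    have h4 : ((Z 0 : ℂ) * (σ v - τ v)) ^ 2 = (s : ℂ) ^ 2 := by
      have h5 : ((Z 1 : ℤ) : ℂ) ^ 2 - 4 * (Z 0 : ℂ) * ((Z 2 : ℤ) : ℂ) = (s : ℂ) * s := by
        exact_mod_cast hs
      rw [e1, e2] at h5
      linear_combination h5
    have h6 : ∀ s : ℤ, (Z 0 : ℂ) * (σ v - τ v) = (s : ℂ) → False := by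
      intro s h
      apply hy (((Z 1 : ℚ) + s) / (2 * Z 0))
      apply σ.injective
      have h7 : σ (algebraMap ℚ K (((Z 1 : ℚ) + s) / (2 * Z 0))) =
          ((((Z 1 : ℚ) + s) / (2 * Z 0) : ℚ) : ℂ) := by
        rw [AlgHom.commutes]
        rfl
      show σ v = σ _
      rw [h7]
      push_cast
      rw [e1, ← h]
      field_simp
      ring
    rcases sq_eq_sq_iff_eq_or_eq_neg.1 h4 with h | h
    · exact h6 s h
    · refine h6 (-s) ?_
      rw [h]
      push_cast
      ring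
  -- the deformation
  have hrB : 1 ≤ r * B := by
    by_contra hcon
    apply hw
    unfold sp
    rcases Nat.mul_eq_zero.1 (show r * B = 0 by omega) with h | h
    · subst h
      simp
    · have h4 : ∀ j, c 0 j = 0 := fun j => by
        have := hc 0 j
        rw [h] at this
        exact abs_eq_zero.1 (le_antisymm (by simpa using this) (abs_nonneg _))
      simp [h4]
  obtain ⟨p, hp1, hp2, hp3⟩ := param {fP n} n (by omega) (2 ^ (n + 1) + 3)
    (Nat.succ_le_of_lt (by positivity)) (by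
    rintro F rfl
    exact fP_deg n) (by
    rintro F rfl
    exact_mod_cast fP_nz n) b hb B hrB e c hc Z (fun i => rfl) (by
    rintro F rfl
    rw [fP_eval, hZid]
    exact sub_self _)
  have hp0 := hp1 _ rfl
  rw [fP_aeval] at hp0
  obtain ⟨k1, k2, k3⟩ := quad_const n hn (p 0) (p 1) (p 2) (p 3) (_root_.sub_eq_zero.1 hp0) (b : ℤ)
    (by rw [hp2]; exact hZ0) (by rw [hp2]; exact hZ3) (by rw [hp2, hp2, hp2]; exact hirr)
  rw [hp2, hp2] at k1 k2 k3
  have hp00 : p 0 ≠ 0 := by
    intro h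
    have := hp2 0
    rw [h, Polynomial.eval_zero] at this
    exact hZ0 this.symm
  have hM : ∀ i k, |(p i).coeff k| ≤ ((bound n r B : ℕ) : ℤ) := by
    intro i k
    have h4 := hp3 i k
    have h5 : 1 + (2 ^ (n + 1) + 3) = 2 ^ (n + 1) + 4 := by omega
    rw [h5] at h4
    exact h4
  rw [h1, h2, h3]
  exact ⟨ratio_bound (p 1) (p 0) _ (hM 1) (hM 0) _ _ hZ0 hp00 k1,
    ratio_bound (p 2) (p 0) _ (hM 2) (hM 0) _ _ hZ0 hp00 k2,
    ratio_bound (p 3) (p 0) _ (hM 3) (hM 0) _ _ hZ0 hp00 k3⟩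

end Pool.Agent.Results.MP_50a406_nt.SparseQuadratic
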